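import Pool.Agent.BEH.Stmts

/-!
# Row THE of squad BEH: the profile
-/

namespace Pool.Agent.BEH.H4

open Set Filter Topology MeasureTheory

noncomputable section

/-- The bump function with centre `3/4`. -/
def bp : ContDiffBump (3 / 4 : ℝ) := ⟨1 / 8, 1 / 4, by norm_num, by norm_num⟩

/-- The derivative of the profile. -/
def th' : ℝ → ℝ := bp.normed volume

/-- The profile. -/
def th (s : ℝ) : ℝ := ∫ t in (1 / 2 : ℝ)..s, th' t

lemma th'_smooth : ContDiff ℝ ((⊤ : ℕ∞) : WithTop ℕ∞) th' := bp.contDiff_normed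

lemma th'_cont : Continuous th' := th'_smooth.continuous

lemma th'_nonneg (s : ℝ) : 0 ≤ th' s := bp.nonneg_normed s

lemma th'_supp : Function.support th' = Ioo (1 / 2) 1 := by
  have h : Function.support th' = Metric.ball (3 / 4) (1 / 4) := bp.support_normed_eq
  rw [h, Real.ball_eq_Ioo]
  norm_num

lemma th'_pos (s : ℝ) (h1 : 1 / 2 < s) (h2 : s < 1) : 0 < th' s := by
  have h : s ∈ Function.support th' := by rw [th'_supp]; exact ⟨h1, h2⟩
  exact lt_of_le_of_ne (th'_nonneg s) (Ne.symm h)

lemma th'_zero (s : ℝ) (h : s ≤ 1 / 2 ∨ 1 ≤ s) : th' s = 0 := by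
  by_contra h0
  have h1 : s ∈ Function.support th' := h0
  rw [th'_supp] at h1
  rcases h with h | h
  · exact absurd h1.1 (not_lt.mpr h)
  · exact absurd h1.2 (not_lt.mpr h)

lemma th'_int : ∫ t, th' t = 1 := bp.integral_normed

lemma th'_ii (a b : ℝ) : IntervalIntegrable th' volume a b := th'_cont.intervalIntegrable a b

lemma th'_int1 : ∫ t in (1 / 2 : ℝ)..1, th' t = 1 := by
  rw [intervalIntegral.integral_of_le (by norm_num : (1 / 2 : ℝ) ≤ 1)]
  refine Eq.trans ?_ th'_int
  refine setIntegral_eq_integral_of_forall_compl_eq_zero fun x hx => th'_zero x ?_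
  by_contra hh
  push Not at hh
  exact hx ⟨hh.1, hh.2.le⟩

lemma th_der (s : ℝ) : HasDerivAt th (th' s) s :=
  intervalIntegral.integral_hasDerivAt_right (th'_ii _ _)
    (th'_cont.stronglyMeasurableAtFilter _ _) th'_cont.continuousAt

lemma th_smooth : ContDiff ℝ ((⊤ : ℕ∞) : WithTop ℕ∞) th := by
  rw [contDiff_infty_iff_deriv]
  refine ⟨fun s => (th_der s).differentiableAt, ?_⟩
  have : deriv th = th' := funext fun s => (th_der s).deriv
  rw [this]
  exact th'_smooth

lemma th_zero (s : ℝ) (h : s ≤ 1 / 2) : th s = 0 := by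
  unfold th
  rw [intervalIntegral.integral_symm, intervalIntegral.integral_of_le h]
  rw [setIntegral_eq_zero_of_forall_eq_zero (fun x hx => th'_zero x (Or.inl hx.2)), neg_zero]

lemma th_one (s : ℝ) (h : 1 ≤ s) : th s = 1 := by
  unfold th
  rw [← intervalIntegral.integral_add_adjacent_intervals (th'_ii _ 1) (th'_ii 1 s), th'_int1,
    intervalIntegral.integral_of_le h,
    setIntegral_eq_zero_of_forall_eq_zero (fun x hx => th'_zero x (Or.inr hx.1.le)), add_zero]

lemma th_mono : Monotone th := by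
  refine monotone_of_deriv_nonneg (fun s => (th_der s).differentiableAt) fun s => ?_
  rw [(th_der s).deriv]
  exact th'_nonneg s

lemma th_rng (s : ℝ) : 0 ≤ th s ∧ th s ≤ 1 := by
  constructor
  · rcases le_total s (1 / 2) with h | h
    · rw [th_zero s h]
    · rw [← th_zero (1 / 2) le_rfl]; exact th_mono h
  · rcases le_total 1 s with h | h
    · rw [th_one s h]
    · rw [← th_one 1 le_rfl]; exact th_mono h

lemma th'_bdd : ∃ A : ℝ, 0 < A ∧ ∀ s, th' s ≤ A := by
  have hc : HasCompactSupport th' := bp.hasCompactSupport_normed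
  obtain ⟨C, hC⟩ := hc.exists_bound_of_continuous th'_cont
  refine ⟨max C 1, lt_max_of_lt_right one_pos, fun s => ?_⟩
  exact (le_abs_self _).trans ((hC s).trans (le_max_left _ _))

/-- THE. -/
theorem the : TheStmt := by
  obtain ⟨A, hA, hb⟩ := th'_bdd
  exact ⟨A, th, th', hA, th_smooth, th_der, th'_smooth, th'_pos, th'_zero,
    fun s => ⟨th'_nonneg s, hb s⟩, th_rng, th_zero, th_one⟩

end

end Pool.Agent.BEH.H4
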